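import Mathlib

namespace Pool.Agent.Results.MP_2d70c5_nt.Equal

open Equiv

/-- the number of permutations of an `n`-element set all of whose cycles have length `1` or `d`
(`cycleType` lists the lengths of the cycles of length at least `2`) -/
noncomputable def H (d n : ℕ) : ℕ := Nat.card {σ : Perm (Fin n) // ∀ k ∈ σ.cycleType, k = d}

lemma H_eq (d n : ℕ) (hd : 2 ≤ d) (h1 : d ≤ n) (h2 : n < 2 * d) :
    H d n = 1 + n.factorial / ((n - d).factorial * d) := by
  classical
  have key : ∀ σ : Perm (Fin n), (∀ k ∈ σ.cycleType, k = d) ↔ σ = 1 ∨ σ.cycleType = {d} := by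
    intro σ
    constructor
    · intro h
      have h3 := Multiset.eq_replicate_card.2 h
      have h4 := σ.sum_cycleType_le
      rw [h3, Multiset.sum_replicate, smul_eq_mul, Fintype.card_fin] at h4
      have h5 : Multiset.card σ.cycleType < 2 := by
        by_contra h6
        have : 2 * d ≤ Multiset.card σ.cycleType * d := Nat.mul_le_mul_right _ (by omega)
        omega
      have h6 : Multiset.card σ.cycleType = 0 ∨ Multiset.card σ.cycleType = 1 := by omega
      rcases h6 with h6 | h6
      · left; exact Perm.card_cycleType_eq_zero.1 h6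
      · right; rw [h3, h6]; rfl
    · rintro (rfl | h)
      · simp
      · simp [h]
  unfold H
  rw [Nat.card_eq_fintype_card, Fintype.card_subtype]
  simp only [key]
  rw [Finset.filter_or, Finset.card_union_of_disjoint, Perm.card_of_cycleType, if_pos]
  · simp [Finset.filter_eq']
  · simp [h1, hd]
  · rw [Finset.disjoint_filter]
    rintro σ - rfl
    simp

theorem result : ∃ a b n m : ℕ, 2 ≤ a ∧ a < b ∧ a ≤ n ∧ b ≤ m ∧ H a n = H b m := by
  refine ⟨42, 45, 49, 47, by norm_num, by norm_num, by norm_num, by norm_num, ?_⟩
  rw [H_eq 42 49 (by norm_num) (by norm_num) (by norm_num),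
    H_eq 45 47 (by norm_num) (by norm_num) (by norm_num)]
  decide +kernel

end Pool.Agent.Results.MP_2d70c5_nt.Equal
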